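import Pool.Agent.Helper50.BL.Stmts
import Pool.Agent.Helper50.BL.Base

/-! Beck-Fiala for nearly disjoint systems: the sum of the label costs over the levels. -/

set_option autoImplicit false

namespace Pool.Agent.Helper50.BL

open Finset
open scoped Classical

theorem st_E1FS (h1 : ST_D1) (h2 : ST_D2) (h3 : ST_D3) : ST_E1FS := by
  intro κ t Ag K z Nf G hκ ht hAg hK hz hN
  have hAg0 : 0 < Ag := by linarith
  have ht0 : 0 < t := by linarith
  obtain ⟨a, ha⟩ : ∃ a : ℝ, a = 1 / Ag := ⟨_, rfl⟩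
  obtain ⟨b, hb⟩ : ∃ b : ℝ, b = 1 / (64 * t * Ag) := ⟨_, rfl⟩
  have ha0 : 0 < a := by rw [ha]; positivity
  have hb0 : 0 < b := by rw [hb]; positivity
  have hab : a = 64 * t * b := by rw [ha, hb]; field_simp
  have hba : b ≤ a := by
    rw [hab]; nlinarith
  have hab2 : a ≤ 2 ^ Nf * b := by
    rw [hab]; exact mul_le_mul_of_nonneg_right hN hb0.le
  have hza : z / a = Ag * z := by rw [ha]; field_simp
  have hzb : z / b = 64 * t * Ag * z := by rw [hb]; field_simp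
  have hκ2 : 0 ≤ κ + 2 := by linarith
  have key : ∀ l ∈ G, (2 : ℝ) ^ l * E1f κ t Ag K ((2 : ℝ) ^ l) z =
      (κ + 2) * ((2 : ℝ) ^ l * (if b * (2 : ℝ) ^ l ≤ z ∧ z < a * (2 : ℝ) ^ l
        then z / (a * (2 : ℝ) ^ l) else 0)) +
      (κ + 2) * Real.sqrt 2 * ((2 : ℝ) ^ l * (if a * (2 : ℝ) ^ l ≤ z
        then Real.sqrt (z / (a * (2 : ℝ) ^ l)) else 0)) +
      2 / K * ((2 : ℝ) ^ l * (if b * (2 : ℝ) ^ l ≤ z then (1 : ℝ) else 0)) := by
    intro l _
    have hp : 0 < (2 : ℝ) ^ l := by positivity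
    have e1' : (2 : ℝ) ^ l / (64 * t * Ag) = b * (2 : ℝ) ^ l := by rw [hb]; ring
    have e2' : (2 : ℝ) ^ l / Ag = a * (2 : ℝ) ^ l := by rw [ha]; ring
    have hle : b * (2 : ℝ) ^ l ≤ a * (2 : ℝ) ^ l := mul_le_mul_of_nonneg_right hba hp.le
    unfold E1f e1
    rw [e1', e2']
    by_cases c1 : z < b * (2 : ℝ) ^ l
    · rw [if_pos c1, if_neg (fun h => absurd h.1 (not_le.2 c1)),
        if_neg (not_le.2 (lt_of_lt_of_le c1 hle)), if_neg (not_le.2 c1)]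
      ring
    · rw [if_neg c1, if_neg c1, if_pos (not_lt.1 c1)]
      by_cases c2 : z < a * (2 : ℝ) ^ l
      · rw [if_pos c2, if_pos ⟨not_lt.1 c1, c2⟩, if_neg (not_le.2 c2)]
        ring
      · rw [if_neg c2, if_neg (fun h => c2 h.2), if_pos (not_lt.1 c2), mul_div_assoc,
          Real.sqrt_mul (by norm_num)]
        ring
  rw [Finset.sum_congr rfl key, Finset.sum_add_distrib, Finset.sum_add_distrib,
    ← Finset.mul_sum, ← Finset.mul_sum, ← Finset.mul_sum]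
  have g1 := h1 a z G ha0 hz
  have g2 := h2 b z G hb0 hz
  have g3 := h3 a b z Nf G hb0 hba hab2 hz
  have hs2 : Real.sqrt 2 ≤ 3 / 2 := by
    rw [Real.sqrt_le_left (by norm_num)]; norm_num
  have hzA : 0 ≤ Ag * z := by positivity
  have i1 : (κ + 2) * Real.sqrt 2 * ∑ l ∈ G, (2 : ℝ) ^ l * (if a * (2 : ℝ) ^ l ≤ z
        then Real.sqrt (z / (a * (2 : ℝ) ^ l)) else 0) ≤ (κ + 2) * (6 * (Ag * z)) := by
    have j1 : (κ + 2) * Real.sqrt 2 * ∑ l ∈ G, (2 : ℝ) ^ l * (if a * (2 : ℝ) ^ l ≤ z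
        then Real.sqrt (z / (a * (2 : ℝ) ^ l)) else 0) ≤
        (κ + 2) * Real.sqrt 2 * (4 * z / a) :=
      mul_le_mul_of_nonneg_left g1 (by positivity)
    have j2 : 4 * z / a = 4 * (Ag * z) := by rw [mul_div_assoc, hza]
    rw [j2] at j1
    have j3 : (κ + 2) * (Real.sqrt 2 * (4 * (Ag * z))) ≤ (κ + 2) * (6 * (Ag * z)) := by
      apply mul_le_mul_of_nonneg_left _ hκ2
      nlinarith
    linarith
  have i2 : 2 / K * ∑ l ∈ G, (2 : ℝ) ^ l * (if b * (2 : ℝ) ^ l ≤ z then (1 : ℝ) else 0) ≤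
      2 / K * (2 * (64 * t * Ag * z)) := by
    have j2 : 2 * z / b = 2 * (64 * t * Ag * z) := by rw [mul_div_assoc, hzb]
    rw [j2] at g2
    exact mul_le_mul_of_nonneg_left g2 (by positivity)
  have i3 : (κ + 2) * ∑ l ∈ G, (2 : ℝ) ^ l * (if b * (2 : ℝ) ^ l ≤ z ∧ z < a * (2 : ℝ) ^ l
        then z / (a * (2 : ℝ) ^ l) else 0) ≤ (κ + 2) * ((Nf + 1) * (Ag * z)) := by
    have j2 : ((Nf : ℝ) + 1) * z / a = (Nf + 1) * (Ag * z) := by rw [mul_div_assoc, hza]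
    rw [j2] at g3
    exact mul_le_mul_of_nonneg_left g3 hκ2
  have e : Rf κ t Ag K Nf * z = (κ + 2) * ((Nf + 1) * (Ag * z)) + (κ + 2) * (6 * (Ag * z)) +
      2 / K * (2 * (64 * t * Ag * z)) := by
    unfold Rf
    ring
  rw [e]
  linarith

end Pool.Agent.Helper50.BL
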